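import Mathlib
import Pool.Agent.TH187.EC.An5

set_option autoImplicit false

/-!
# The exact growth order of the Euler characteristics of the minimal strata (MP_d717c6_ag)

`chi g` is the Euler characteristic of the minimal stratum `M_g(2g-1)`, given by the explicit
generating series described in `Pool.Agent.TH187.EC.Defs` (see also the file `SignAndGrowth`).

The theorem sharpens Q1: `- χ(M_g(2g-1)) ~ 2 (2g-1)! / ((2g-1)^3 (log g)^2)` as `g → ∞`.
So the true order lies strictly between the two powers of the question, and the constant `B` may
be replaced by any positive constant for large genus.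
-/

namespace Pool.Agent.Results.MP_d717c6_ag.ExactGrowthOrder

open Filter Topology Pool.Agent.TH187.EC

/-- `- χ(M_g(2g-1)) (2g-1)^3 (log g)^2 / (2g-1)!` tends to `2`. -/
theorem result : Tendsto (fun g : ℕ => -((chi g : ℚ) : ℝ) * (2 * (g : ℝ) - 1) ^ 3 *
    Real.log (g : ℝ) ^ 2 / ((2 * g - 1).factorial : ℝ)) atTop (𝓝 2) :=
  tendsto_chi

end Pool.Agent.Results.MP_d717c6_ag.ExactGrowthOrder
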