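import Mathlib
import Pool.Agent.TH187.EC.An5

set_option autoImplicit false

/-!
# Sign and growth of the Euler characteristics of the minimal strata (MP_d717c6_ag, Q1)

The orbifold Euler characteristic of the minimal stratum `M_g(2g-1)` is given by an explicit
generating series.  With `N = 2g - 1`, `S(z) = sinh(z/2)/(z/2)` and `1/S(z) = ∑ b_n z^n` it reads

`- χ(M_g(2g-1)) = ∑_{h=0}^{g-1} 2 (g-h) N^(2h-2) [z^(2h) t^(2g-2h)]
    exp(N z S'(z)/S(z)) exp(- N ∑_{n ≥ 1} (n-1)! b_n t^n S((n-1)z)/S(z)) / S(z)^(2h+1)`,

and this is the number `chi g` of `Pool.Agent.TH187.EC.Defs`.  It is the Euler characteristic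
formula of Costantini, Moeller and Zachhuber evaluated on a minimal stratum: the sum over level
graphs collapses to a sum over star graphs; the central vertex has genus `h`, carries the marked
zero of order `2g-2`, and contributes the integral of a power of the psi class on a stratum with
poles (closed formula of Costantini, Sauvaget and Schmitt,
`[z^(2h)] exp(N z S'/S) ∏ S(a_i z) / S(z)^(2h+n)`), and an outlying vertex of genus `j`
(glued along a pole of order `2j`, that is `a_i = 2j-1`) contributes the volume-type integral of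
the minimal stratum of genus `j`, which by Sauvaget's recursion assembles to the Hodge integrals
`(2j-1)! b_{2j}`; the factor `2(g-h)` is the dimension of the top level.
As a check of the definition, `values` below shows that the formula gives the known values
`-1/12, -1/40, -55/504, -1169/720` for `g = 1, 2, 3, 4`.

The theorem answers Q1 in the affirmative, with explicit constants `A = 1/40` and `B = 2`.
-/

namespace Pool.Agent.Results.MP_d717c6_ag.SignAndGrowth

open Pool.Agent.TH187.EC

/-- Check of the definition of `chi` against the known Euler characteristics. -/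
theorem values : chi 1 = -1 / 12 ∧ chi 2 = -1 / 40 ∧ chi 3 = -55 / 504 ∧ chi 4 = -1169 / 720 :=
  ⟨chi_1, chi_2, chi_3, chi_4⟩

/-- For every genus `g ≥ 1` the Euler characteristic `chi g` of the minimal stratum is negative,
and `(1/40) (2g-1)!/(2g-1)^4 ≤ - chi g ≤ 2 (2g-1)!/(2g-1)^3`. -/
theorem result : ∀ g : ℕ, 1 ≤ g →
    chi g < 0 ∧
    (1 / 40 : ℝ) * (((2 * g - 1).factorial : ℝ) / (2 * (g : ℝ) - 1) ^ 4) ≤ -((chi g : ℚ) : ℝ) ∧
    -((chi g : ℚ) : ℝ) ≤ 2 * (((2 * g - 1).factorial : ℝ) / (2 * (g : ℝ) - 1) ^ 3) :=
  fun g hg => ⟨chi_neg g hg, chi_bounds g hg⟩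

end Pool.Agent.Results.MP_d717c6_ag.SignAndGrowth
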